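import Mathlib

/-!
# Removing almost dominated vertices one by one
-/

set_option autoImplicit false

namespace Pool.Agent.Y384.DM

open SimpleGraph

/-- `Reduces G D K`: one can get from all vertices to `K` by removing vertices one by one, where a
vertex `v` of the current set `T` can be removed if there is another vertex `x` of `T` such that
all but at most `D` of the neighbours of `v` in `T` other than `x` are neighbours of `x`. -/
inductive Reduces {V : Type} (G : SimpleGraph V) (D : ℕ) : Set V → Prop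
  | univ : Reduces G D Set.univ
  | step {T : Set V} {v x : V} : Reduces G D T → v ∈ T → x ∈ T → x ≠ v →
      {w : V | w ∈ T ∧ G.Adj v w ∧ w ≠ x ∧ ¬ G.Adj x w}.ncard ≤ D → Reduces G D (T \ {v})

/-- The order of the removals. -/
theorem Reduces.rank {V : Type} [Finite V] {G : SimpleGraph V} {D : ℕ} {K : Set V}
    (h : Reduces G D K) :
    ∃ (m : ℕ) (ρ : V → ℕ) (p : V → V), (∀ v, v ∈ K ↔ ρ v = m) ∧ (∀ v, ρ v ≤ m) ∧
      (∀ u v, u ∉ K → ρ u = ρ v → u = v) ∧ (∀ v, v ∉ K → ρ v < ρ (p v)) ∧
      (∀ v, v ∉ K →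
        {w : V | ρ v < ρ w ∧ G.Adj v w ∧ w ≠ p v ∧ ¬ G.Adj (p v) w}.ncard ≤ D) := by
  classical
  induction h with
  | univ =>
    exact ⟨0, fun _ => 0, id, fun v => by simp, fun v => le_rfl,
      fun u v h => absurd (Set.mem_univ u) h, fun v h => absurd (Set.mem_univ v) h,
      fun v h => absurd (Set.mem_univ v) h⟩
  | @step T v x hT hv hx hxv hdom ih =>
    obtain ⟨m, ρ, p, h1, h2, h3, h4, h5⟩ := ih
    refine ⟨m + 1, fun w => if w ∈ T \ {v} then m + 1 else ρ w, Function.update p v x, ?_, ?_, ?_,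
      ?_, ?_⟩
    · intro w
      by_cases h : w ∈ T \ {v}
      · simp only [h, if_true]
      · have := h2 w
        simp only [h, if_false, false_iff]
        omega
    · intro w
      have := h2 w
      simp only
      split_ifs <;> omega
    · intro u w hu huw
      have hum := h2 u
      simp only [hu, if_false] at huw
      by_cases hw : w ∈ T \ {v}
      · rw [if_pos hw] at huw
        omega
      · rw [if_neg hw] at huw
        by_cases huT : u ∈ T
        · have huv : u = v := by
            by_contra hne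
            exact hu ⟨huT, hne⟩
          have hwT : w ∈ T := by
            rw [h1, ← huw]
            exact (h1 u).1 huT
          have hwv : w = v := by
            by_contra hne
            exact hw ⟨hwT, hne⟩
          rw [huv, hwv]
        · exact h3 u w huT huw
    · intro w hw
      simp only [hw, if_false]
      by_cases hwT : w ∈ T
      · have hwv : w = v := by
          by_contra hne
          exact hw ⟨hwT, hne⟩
        rw [hwv, Function.update_self, if_pos ⟨hx, hxv⟩]
        have := h2 v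
        omega
      · have hwv : w ≠ v := fun h => hwT (h ▸ hv)
        rw [Function.update_of_ne hwv]
        have h6 := h4 w hwT
        have h7 := h2 (p w)
        split_ifs <;> omega
    · intro w hw
      simp only [hw, if_false]
      by_cases hwT : w ∈ T
      · have hwv : w = v := by
          by_contra hne
          exact hw ⟨hwT, hne⟩
        subst hwv
        rw [Function.update_self]
        refine le_trans (Set.ncard_le_ncard ?_ (Set.toFinite _)) hdom
        rintro z ⟨hlt, hadj, hzx, hnot⟩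
        have hz : z ∈ T \ {w} := by
          by_contra hz
          rw [if_neg hz] at hlt
          have := h2 z
          have := (h1 w).1 hwT
          omega
        exact ⟨hz.1, hadj, hzx, hnot⟩
      · have hwv : w ≠ v := fun h => hwT (h ▸ hv)
        rw [Function.update_of_ne hwv]
        refine le_trans (Set.ncard_le_ncard ?_ (Set.toFinite _)) (h5 w hwT)
        rintro z ⟨hlt, hadj, hzx, hnot⟩
        refine ⟨?_, hadj, hzx, hnot⟩
        by_cases hz : z ∈ T \ {v}
        · have h6 := (h1 z).1 hz.1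
          have h7 := h4 w hwT
          have h8 := h2 (p w)
          omega
        · rwa [if_neg hz] at hlt

/-- One can continue until there are no almost dominated vertices. -/
theorem exists_stiff {V : Type} [Finite V] (G : SimpleGraph V) (D : ℕ) :
    ∃ K : Set V, Reduces G D K ∧ ∀ v ∈ K, ∀ x ∈ K, x ≠ v →
      D < {w : V | w ∈ K ∧ G.Adj v w ∧ w ≠ x ∧ ¬ G.Adj x w}.ncard := by
  have key : ∀ (n : ℕ) (T : Set V), T.ncard ≤ n → Reduces G D T →
      ∃ K : Set V, Reduces G D K ∧ ∀ v ∈ K, ∀ x ∈ K, x ≠ v →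
        D < {w : V | w ∈ K ∧ G.Adj v w ∧ w ≠ x ∧ ¬ G.Adj x w}.ncard := by
    intro n
    induction n with
    | zero =>
      intro T hT h
      have hT' : T = ∅ := by
        rw [← Set.ncard_eq_zero (Set.toFinite _)]
        omega
      refine ⟨T, h, fun v hv => ?_⟩
      rw [hT'] at hv
      exact absurd hv (Set.notMem_empty v)
    | succ n ih =>
      intro T hT h
      by_cases hs : ∀ v ∈ T, ∀ x ∈ T, x ≠ v →
        D < {w : V | w ∈ T ∧ G.Adj v w ∧ w ≠ x ∧ ¬ G.Adj x w}.ncard
      · exact ⟨T, h, hs⟩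
      · push Not at hs
        obtain ⟨v, hv, x, hx, hxv, hle⟩ := hs
        refine ih (T \ {v}) ?_ (Reduces.step h hv hx hxv hle)
        rw [Set.ncard_sdiff_singleton_of_mem hv]
        omega
  exact key _ _ le_rfl Reduces.univ

theorem card_pairs {V : Type} [Fintype V] [DecidableEq V] (G : SimpleGraph V) (K : Set V) :
    {q : V × V | q.1 ∈ K ∧ q.2 ∈ K ∧ G.Adj q.1 q.2}.ncard = 2 * (G.induce K).edgeSet.ncard := by
  classical
  have h1 := (G.induce K).dart_card_eq_twice_card_edges
  have h2 : (G.induce K).edgeSet.ncard = (G.induce K).edgeFinset.card :=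
    Set.ncard_eq_toFinset_card' _
  rw [h2, ← h1, ← Nat.card_eq_fintype_card, ← Nat.card_coe_set_eq]
  refine Nat.card_congr ?_
  refine ⟨fun q => ⟨(⟨q.1.1, q.2.1⟩, ⟨q.1.2, q.2.2.1⟩), q.2.2.2⟩,
    fun d => ⟨(d.fst, d.snd), d.fst.2, d.snd.2, d.adj⟩, fun q => rfl, fun d => rfl⟩

theorem card_pairs_univ {V : Type} [Fintype V] [DecidableEq V] (G : SimpleGraph V) :
    {q : V × V | G.Adj q.1 q.2}.ncard = 2 * G.edgeSet.ncard := by
  classical
  have h1 := G.dart_card_eq_twice_card_edges
  have h2 : G.edgeSet.ncard = G.edgeFinset.card := Set.ncard_eq_toFinset_card' _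
  rw [h2, ← h1, ← Nat.card_eq_fintype_card, ← Nat.card_coe_set_eq]
  refine Nat.card_congr ?_
  refine ⟨fun q => ⟨(q.1.1, q.1.2), q.2⟩, fun d => ⟨(d.fst, d.snd), d.adj⟩, fun q => rfl,
    fun d => rfl⟩

/-- Edges and later neighbours. -/
theorem split_edges {V : Type} [Fintype V] [DecidableEq V] (G : SimpleGraph V) {K : Set V}
    {ρ : V → ℕ} (h3 : ∀ u v, u ∉ K → ρ u = ρ v → u = v) :
    G.edgeSet.ncard ≤ {q : V × V | G.Adj q.1 q.2 ∧ ρ q.1 < ρ q.2}.ncard +
      (G.induce K).edgeSet.ncard := by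
  classical
  have h1 := card_pairs_univ G
  have h2 := card_pairs G K
  have h4 : {q : V × V | G.Adj q.1 q.2}.ncard ≤
      ({q : V × V | G.Adj q.1 q.2 ∧ ρ q.1 < ρ q.2} ∪
        ({q : V × V | G.Adj q.1 q.2 ∧ ρ q.2 < ρ q.1} ∪
          {q : V × V | q.1 ∈ K ∧ q.2 ∈ K ∧ G.Adj q.1 q.2})).ncard := by
    refine Set.ncard_le_ncard (fun q hq => ?_) (Set.toFinite _)
    have hq : G.Adj q.1 q.2 := hq
    rcases lt_trichotomy (ρ q.1) (ρ q.2) with h | h | h
    · exact Or.inl ⟨hq, h⟩
    · right; right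
      refine ⟨?_, ?_, hq⟩
      · by_contra h5
        exact hq.ne (h3 _ _ h5 h)
      · by_contra h5
        exact hq.ne (h3 _ _ h5 h.symm).symm
    · exact Or.inr (Or.inl ⟨hq, h⟩)
  have h5 : {q : V × V | G.Adj q.1 q.2 ∧ ρ q.2 < ρ q.1}.ncard =
      {q : V × V | G.Adj q.1 q.2 ∧ ρ q.1 < ρ q.2}.ncard := by
    rw [← Nat.card_coe_set_eq, ← Nat.card_coe_set_eq]
    exact Nat.card_congr ⟨fun q => ⟨(q.1.2, q.1.1), q.2.1.symm, q.2.2⟩,
      fun q => ⟨(q.1.2, q.1.1), q.2.1.symm, q.2.2⟩, fun q => rfl, fun q => rfl⟩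
  have h6 := Set.ncard_union_le {q : V × V | G.Adj q.1 q.2 ∧ ρ q.1 < ρ q.2}
    ({q : V × V | G.Adj q.1 q.2 ∧ ρ q.2 < ρ q.1} ∪
          {q : V × V | q.1 ∈ K ∧ q.2 ∈ K ∧ G.Adj q.1 q.2})
  have h7 := Set.ncard_union_le {q : V × V | G.Adj q.1 q.2 ∧ ρ q.2 < ρ q.1}
    {q : V × V | q.1 ∈ K ∧ q.2 ∈ K ∧ G.Adj q.1 q.2}
  omega

end Pool.Agent.Y384.DM
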