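import Pool.Agent.TH454.BW.Blow
import Pool.Agent.Y384.DM.Basic

/-!
# Complete bipartite graphs and dominated vertices: the lower bound
-/

set_option autoImplicit false

namespace Pool.Agent.Y384.DM

open Finset SimpleGraph

/-- A graph with a vertex adjacent to all others can be reduced to this vertex. -/
theorem reduces_cone {V : Type} [Finite V] (G : SimpleGraph V) (z : V)
    (hz : ∀ v, v ≠ z → G.Adj z v) : Reduces G 0 {z} := by
  classical
  have := Fintype.ofFinite V
  have key : ∀ S : Finset V, z ∉ S → Reduces G 0 {v | v ∉ S} := by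
    intro S
    induction S using Finset.induction_on with
    | empty =>
      intro _
      have : {v : V | v ∉ (∅ : Finset V)} = Set.univ := by
        ext v
        simp
      rw [this]
      exact Reduces.univ
    | @insert a S ha ih =>
      intro h
      rw [mem_insert, not_or] at h
      have h1 := ih h.2
      have h2 : {v : V | v ∉ insert a S} = {v | v ∉ S} \ {a} := by
        ext v
        simp only [mem_insert, not_or, Set.mem_sdiff, Set.mem_ofPred_eq, Set.mem_singleton_iff]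
        tauto
      rw [h2]
      refine Reduces.step h1 (x := z) ha h.2 h.1 ?_
      rw [Nat.le_zero, Set.ncard_eq_zero (Set.toFinite _), Set.eq_empty_iff_forall_notMem]
      rintro w ⟨-, -, h3, h4⟩
      exact h4 (hz w h3)
  have h := key (univ.erase z) (notMem_erase _ _)
  have h2 : {v : V | v ∉ univ.erase z} = {z} := by
    ext v
    simp
  rwa [h2] at h

/-- The graph of `H` on the image of `f`, with `z` joined to all vertices. -/
def cone {A V : Type} (H : SimpleGraph A) (f : A ↪ V) (z : V) : SimpleGraph V where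
  Adj a b := a ≠ b ∧ (a = z ∨ b = z ∨ (H.map f).Adj a b)
  symm := ⟨fun a b h => ⟨h.1.symm, by
    rcases h.2 with h | h | h
    · exact Or.inr (Or.inl h)
    · exact Or.inl h
    · exact Or.inr (Or.inr h.symm)⟩⟩
  loopless := ⟨fun a h => h.1 rfl⟩

theorem cone_free {A V : Type} [Finite V] (H : SimpleGraph A) (f : A ↪ V) (z : V) (s t : ℕ)
    (hs : 2 ≤ s) (ht : 2 ≤ t)
    (hH : (completeBipartiteGraph (Fin (s - 1)) (Fin (t - 1))).Free H) :
    (completeBipartiteGraph (Fin s) (Fin t)).Free (cone H f z) := by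
  classical
  have := Fintype.ofFinite V
  intro hcon
  rw [completeBipartiteGraph_isContained_iff] at hcon
  obtain ⟨S, T, hS, hT, hST⟩ := hcon
  rw [Fintype.card_fin] at hS hT
  have hS' : s - 1 ≤ #(S.erase z) := by
    rw [← hS]
    exact pred_card_le_card_erase
  have hT' : t - 1 ≤ #(T.erase z) := by
    rw [← hT]
    exact pred_card_le_card_erase
  have hadj : ∀ a ∈ S.erase z, ∀ b ∈ T.erase z, ∃ a' b', H.Adj a' b' ∧ f a' = a ∧ f b' = b := by
    intro a ha b hb
    obtain ⟨ha1, ha2⟩ := mem_erase.1 ha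
    obtain ⟨hb1, hb2⟩ := mem_erase.1 hb
    obtain ⟨-, h1 | h1 | h1⟩ := hST (mem_coe.2 ha2) (mem_coe.2 hb2)
    · exact absurd h1 ha1
    · exact absurd h1 hb1
    · rw [SimpleGraph.map_adj] at h1
      exact h1
  have himS : S.erase z ⊆ ((S.erase z).preimage f f.injective.injOn).map f := by
    intro a ha
    obtain ⟨b, hb⟩ : (T.erase z).Nonempty := card_pos.1 (by omega)
    obtain ⟨a', b', -, h2, -⟩ := hadj a ha b hb
    rw [mem_map]
    refine ⟨a', ?_, h2⟩
    rw [mem_preimage, h2]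
    exact ha
  have himT : T.erase z ⊆ ((T.erase z).preimage f f.injective.injOn).map f := by
    intro b hb
    obtain ⟨a, ha⟩ : (S.erase z).Nonempty := card_pos.1 (by omega)
    obtain ⟨a', b', -, -, h2⟩ := hadj a ha b hb
    rw [mem_map]
    refine ⟨b', ?_, h2⟩
    rw [mem_preimage, h2]
    exact hb
  have hS2 : s - 1 ≤ #((S.erase z).preimage f f.injective.injOn) := by
    have := card_le_card himS
    rw [card_map] at this
    omega
  have hT2 : t - 1 ≤ #((T.erase z).preimage f f.injective.injOn) := by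
    have := card_le_card himT
    rw [card_map] at this
    omega
  obtain ⟨S₁, hS₁, hS₂⟩ := exists_subset_card_eq hS2
  obtain ⟨T₁, hT₁, hT₂⟩ := exists_subset_card_eq hT2
  refine hH (completeBipartiteGraph_isContained_iff.2 ⟨S₁, T₁, ?_, ?_, ?_⟩)
  · rw [hS₂, Fintype.card_fin]
  · rw [hT₂, Fintype.card_fin]
  · intro a ha b hb
    have ha2 := mem_preimage.1 (hS₁ (mem_coe.1 ha))
    have hb2 := mem_preimage.1 (hT₁ (mem_coe.1 hb))
    obtain ⟨a', b', h1, h2, h3⟩ := hadj _ ha2 _ hb2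
    rw [f.injective h2, f.injective h3] at h1
    exact h1

theorem cone_card {A V : Type} [Finite V] (H : SimpleGraph A) (f : A ↪ V) (z : V) :
    H.edgeSet.ncard ≤ (cone H f z).edgeSet.ncard := by
  classical
  have h1 : (H.map f).edgeSet.ncard = H.edgeSet.ncard := by
    rw [SimpleGraph.edgeSet_map, Set.ncard_image_of_injective _ f.sym2Map.injective]
  rw [← h1]
  refine Set.ncard_le_ncard ?_ (Set.toFinite _)
  refine SimpleGraph.edgeSet_mono ?_
  intro a b hab
  exact ⟨hab.ne, Or.inr (Or.inr hab)⟩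

/-- Adding a vertex joined to all others. -/
theorem cone_exists (s t n : ℕ) (hs : 2 ≤ s) (ht : 2 ≤ t) {A : Type} [Finite A]
    (hA : Nat.card A ≤ n) (H : SimpleGraph A)
    (hH : (completeBipartiteGraph (Fin (s - 1)) (Fin (t - 1))).Free H) :
    ∃ (G : SimpleGraph (Fin (n + 1))) (z : Fin (n + 1)),
      (completeBipartiteGraph (Fin s) (Fin t)).Free G ∧ (∀ v, v ≠ z → G.Adj z v) ∧
      H.edgeSet.ncard ≤ G.edgeSet.ncard := by
  classical
  have := Fintype.ofFinite A
  rw [Nat.card_eq_fintype_card] at hA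
  obtain ⟨f⟩ : Nonempty (A ↪ Fin n) := by
    rw [Function.Embedding.nonempty_iff_card_le, Fintype.card_fin]
    exact hA
  set g : A ↪ Fin (n + 1) := f.trans (Fin.succEmb n) with hg
  exact ⟨cone H g 0, 0, cone_free H g 0 s t hs ht hH, fun v hv => ⟨hv.symm, Or.inl rfl⟩,
    cone_card H g 0⟩

/-- The order is attained. -/
theorem lower_bip (s t : ℕ) (hs : 3 ≤ s) (ht : (s - 2).factorial + 2 ≤ t) (n : ℕ)
    (hn : 2 ^ (2 * s) ≤ n) :
    ∃ (G : SimpleGraph (Fin n)) (z : Fin n), (completeBipartiteGraph (Fin s) (Fin t)).Free G ∧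
      (∀ v, v ≠ z → G.Adj z v) ∧
      (n : ℝ) ^ (2 - 1 / ((s : ℝ) - 1)) ≤ 2 ^ (2 * s) * G.edgeSet.ncard := by
  classical
  obtain ⟨N, rfl⟩ : ∃ N, n = N + 1 := ⟨n - 1, by
    have : 0 < 2 ^ (2 * s) := by positivity
    omega⟩
  obtain ⟨r, rfl⟩ : ∃ r, s = r + 1 := ⟨s - 1, by omega⟩
  have hr : 2 ≤ r := by omega
  have hN : 2 ^ (2 * r) ≤ N := by
    have h1 : 2 ^ (2 * (r + 1)) = 4 * 2 ^ (2 * r) := by ring
    have : 0 < 2 ^ (2 * r) := by positivity
    omega
  -- the largest `l`
  set l := Nat.log 2 N / r with hl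
  have hN0 : N ≠ 0 := by
    have : 0 < 2 ^ (2 * r) := by positivity
    omega
  have hlog : 2 * r ≤ Nat.log 2 N := Nat.le_log_of_pow_le (by norm_num) hN
  have hl2 : 2 ≤ l := by
    rw [hl, Nat.le_div_iff_mul_le (by omega)]
    exact hlog
  have hle : 2 ^ (r * l) ≤ N := by
    refine le_trans (Nat.pow_le_pow_right (by norm_num) ?_) (Nat.pow_log_le_self 2 hN0)
    rw [hl]
    exact Nat.mul_div_le _ _
  have hlt : N + 1 ≤ 2 ^ (r * (l + 1)) := by
    have h0 : N < 2 ^ (Nat.log 2 N + 1) := Nat.lt_pow_succ_log_self (by norm_num) N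
    have h1 := Nat.lt_mul_div_succ (Nat.log 2 N) (show 0 < r by omega)
    rw [← hl] at h1
    exact h0.trans_le (Nat.pow_le_pow_right (by norm_num) h1)
  obtain ⟨w, H, -, hfree, -, hcard⟩ := Pool.Agent.TH454.BW.norm_nat r (t - 1) l hr (by
    have e : r + 1 - 2 = r - 1 := by omega
    rw [e] at ht
    omega) hl2
  have hA : Nat.card (Pool.Agent.H607R2.BW.Str (r * l)) ≤ N := by
    have : Nat.card (Pool.Agent.H607R2.BW.Str (r * l)) = 2 ^ (r * l) := by
      rw [Nat.card_eq_fintype_card]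
      simp [Pool.Agent.H607R2.BW.Str]
    omega
  have hT2 : 2 ≤ t := by omega
  obtain ⟨G, z, h1, h2, h3⟩ := cone_exists (r + 1) t N (by omega) hT2 hA H
    (by rw [Nat.add_sub_cancel]; exact hfree)
  refine ⟨G, z, h1, h2, ?_⟩
  rw [Nat.card_coe_set_eq] at hcard
  have h4 : 2 ^ ((2 * r - 1) * (l + 1)) ≤ 2 ^ (2 * (r + 1)) * G.edgeSet.ncard := by
    have e1 : 2 ^ ((2 * r - 1) * (l + 1)) = 2 ^ (2 * r - 1) * (2 ^ ((r - 1) * l) * 2 ^ (r * l)) := by
      rw [← pow_add, ← pow_add]
      congr 1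
      obtain ⟨k, rfl⟩ : ∃ k, r = k + 1 := ⟨r - 1, by omega⟩
      have : 2 * (k + 1) - 1 = 2 * k + 1 := by omega
      rw [this, Nat.add_sub_cancel]
      ring
    rw [e1]
    refine (Nat.mul_le_mul_left _ (hcard.trans (Nat.mul_le_mul_left 8 h3))).trans ?_
    rw [← mul_assoc]
    refine Nat.mul_le_mul_right _ ?_
    have e2 : 2 ^ (2 * r - 1) * 8 = 2 ^ (2 * (r + 1)) := by
      have : (8 : ℕ) = 2 ^ 3 := by norm_num
      rw [this, ← pow_add]
      congr 1
      omega
    exact e2.le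
  have h5 : ((N + 1 : ℕ) : ℝ) ^ (2 - 1 / (((r + 1 : ℕ) : ℝ) - 1)) ≤
      (2 : ℝ) ^ ((2 * r - 1) * (l + 1)) := by
    have hr0 : (0 : ℝ) < r := by exact_mod_cast (by omega : 0 < r)
    have e3 : (2 : ℝ) - 1 / (((r + 1 : ℕ) : ℝ) - 1) = (2 * r - 1) / r := by
      have : (r : ℝ) ≠ 0 := hr0.ne'
      rw [Nat.cast_add, Nat.cast_one, add_sub_cancel_right]
      field_simp
    have e4 : (0 : ℝ) ≤ (2 * r - 1) / r := by
      have : (1 : ℝ) ≤ r := by exact_mod_cast (by omega : 1 ≤ r)
      apply div_nonneg <;> linarith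
    rw [e3]
    calc ((N + 1 : ℕ) : ℝ) ^ ((2 * r - 1 : ℝ) / r) ≤
        ((2 : ℝ) ^ (r * (l + 1))) ^ ((2 * r - 1 : ℝ) / r) := by
          refine Real.rpow_le_rpow (Nat.cast_nonneg _) ?_ e4
          exact_mod_cast hlt
      _ = (2 : ℝ) ^ ((2 * r - 1) * (l + 1)) := by
          rw [← Real.rpow_natCast, ← Real.rpow_natCast, ← Real.rpow_mul (by norm_num)]
          congr 1
          rw [Nat.cast_mul, Nat.cast_mul, Nat.cast_sub (by omega)]
          push_cast
          field_simp
  refine h5.trans ?_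
  exact_mod_cast h4

end Pool.Agent.Y384.DM
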