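import Pool.Agent.TH602.Turan.Drop
import Pool.Agent.Y384.DM.Basic

/-!
# Complete bipartite graphs and dominated vertices: the upper bound
-/

set_option autoImplicit false

namespace Pool.Agent.Y384.DM

open Finset SimpleGraph

/-- The number of later neighbours. -/
theorem later_bip (s t : ℕ) (hs : 2 ≤ s) (ht : 1 ≤ t) {V : Type} [Fintype V] [DecidableEq V]
    (G : SimpleGraph V) (hG : (completeBipartiteGraph (Fin s) (Fin t)).Free G) {K : Set V}
    {m : ℕ} {ρ : V → ℕ} {p : V → V}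
    (h1 : ∀ v, v ∈ K ↔ ρ v = m) (h2 : ∀ v, ρ v ≤ m)
    (h4 : ∀ v, v ∉ K → ρ v < ρ (p v)) (X : V → Finset V) (d : ℕ) (hX : ∀ v, (X v).card ≤ d)
    (h5 : ∀ v w, v ∉ K → G.Adj v w → ρ v < ρ w → w ≠ p v → ¬ G.Adj (p v) w → w ∈ X v)
    (P : Finset (V × V)) (hP : ∀ q ∈ P, G.Adj q.1 q.2 ∧ ρ q.1 < ρ q.2) :
    ∃ L : Finset (V × V), #P ≤ #L + (d + 1) * Fintype.card V ∧
      #L ^ (s - 1) ≤ (2 * (s - 1)) ^ (s - 1) * t *
        (Fintype.card V + Fintype.card V) ^ (2 * (s - 1) - 1) := by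
  classical
  refine ⟨P.filter (fun q => G.Adj (p q.1) q.2), ?_, ?_⟩
  · have h6 : P ⊆ P.filter (fun q => G.Adj (p q.1) q.2) ∪
        P.filter (fun q => q.2 ∈ insert (p q.1) (X q.1)) := by
      intro q hq
      by_cases h7 : G.Adj (p q.1) q.2
      · exact mem_union_left _ (mem_filter.2 ⟨hq, h7⟩)
      · refine mem_union_right _ (mem_filter.2 ⟨hq, ?_⟩)
        obtain ⟨hadj, hlt⟩ := hP q hq
        by_cases h8 : q.2 = p q.1
        · exact mem_insert.2 (Or.inl h8)
        · refine mem_insert.2 (Or.inr (h5 _ _ ?_ hadj hlt h8 h7))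
          intro h9
          rw [h1] at h9
          have := h2 q.2
          omega
    refine (card_le_card h6).trans ((card_union_le _ _).trans (Nat.add_le_add_left ?_ _))
    have h7 : #(P.filter (fun q => q.2 ∈ insert (p q.1) (X q.1))) ≤
        ∑ u : V, ((P.filter (fun q => q.2 ∈ insert (p q.1) (X q.1))).filter
          (fun q => q.1 = u)).card :=
      (card_eq_sum_card_fiberwise (f := Prod.fst) (t := (univ : Finset V))
        (fun v _ => mem_coe.2 (mem_univ _))).le
    refine h7.trans ((sum_le_card_nsmul _ _ (d + 1) ?_).trans ?_)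
    · intro u _
      refine le_trans ?_ ((card_insert_le (p u) (X u)).trans (Nat.add_le_add_right (hX _) 1))
      refine card_le_card_of_injOn Prod.snd ?_ ?_
      · intro q hq
        obtain ⟨h7, h8⟩ := mem_filter.1 (mem_coe.1 hq)
        have h9 := (mem_filter.1 h7).2
        rw [h8] at h9
        exact h9
      · intro a ha b hb hab
        have ha' := (mem_filter.1 (mem_coe.1 ha)).2
        have hb' := (mem_filter.1 (mem_coe.1 hb)).2
        exact Prod.ext (ha'.trans hb'.symm) hab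
    · rw [card_univ, smul_eq_mul, mul_comm]
  · refine Pool.Agent.TH602.Turan.kst _ (s - 1) t (by omega) ht ?_
    intro S T hS hT hall
    have hSn : S.Nonempty := card_pos.1 (by omega)
    obtain ⟨y, hy⟩ : T.Nonempty := card_pos.1 (by omega)
    obtain ⟨u, hu, hmax⟩ := exists_max_image S ρ hSn
    have hmem : ∀ x ∈ S, ∀ z ∈ T, G.Adj x z ∧ ρ x < ρ z ∧ G.Adj (p x) z := by
      intro x hx z hz
      obtain ⟨h6, h7⟩ := mem_filter.1 (hall x hx z hz)
      exact ⟨(hP _ h6).1, (hP _ h6).2, h7⟩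
    have huK : u ∉ K := by
      intro h6
      rw [h1] at h6
      have := h2 y
      have := (hmem u hu y hy).2.1
      omega
    have hpu : p u ∉ S := by
      intro h6
      have := hmax _ h6
      have := h4 u huK
      omega
    refine hG (completeBipartiteGraph_isContained_iff.2 ⟨insert (p u) S, T, ?_, ?_, ?_⟩)
    · rw [card_insert_of_notMem hpu, hS, Fintype.card_fin]
      omega
    · rw [hT, Fintype.card_fin]
    · intro a ha b hb
      rw [coe_insert, Set.mem_insert_iff] at ha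
      rcases ha with rfl | ha
      · exact (hmem u hu b (mem_coe.1 hb)).2.2
      · exact (hmem a (mem_coe.1 ha) b (mem_coe.1 hb)).1

/-- From powers of natural numbers to real powers. -/
theorem real_bound (L t p n : ℕ) (hp : 1 ≤ p) (ht : 1 ≤ t)
    (h : L ^ p ≤ (2 * p) ^ p * t * (n + n) ^ (2 * p - 1)) :
    (L : ℝ) ≤ 8 * p * t * (n : ℝ) ^ (2 - 1 / (p : ℝ)) := by
  have hp0 : (0 : ℝ) < p := by exact_mod_cast (by omega : 0 < p)
  have h1 : ((n : ℝ) ^ (2 - 1 / (p : ℝ))) ^ p = (n : ℝ) ^ (2 * p - 1 : ℕ) := by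
    rw [← Real.rpow_natCast, ← Real.rpow_mul (Nat.cast_nonneg _), ← Real.rpow_natCast]
    congr 1
    rw [Nat.cast_sub (by omega)]
    push_cast
    rw [sub_mul, div_mul_cancel₀ _ hp0.ne']
  refine le_of_pow_le_pow_left₀ (n := p) (by omega) (by positivity) ?_
  rw [mul_pow, h1]
  have h2 : L ^ p ≤ (8 * p * t) ^ p * n ^ (2 * p - 1) := by
    refine h.trans ?_
    rw [← two_mul, mul_pow 2 n, ← mul_assoc]
    refine Nat.mul_le_mul_right _ ?_
    have e1 : (8 * p * t) ^ p = (2 * p) ^ p * t ^ p * 2 ^ (2 * p) := by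
      rw [pow_mul, ← mul_pow, ← mul_pow]
      congr 1
      ring
    rw [e1]
    refine Nat.mul_le_mul (Nat.mul_le_mul_left _ (Nat.le_self_pow (by omega) t))
      (Nat.pow_le_pow_right (by norm_num) (by omega))
  exact_mod_cast h2

theorem main_bip (s t : ℕ) (hs : 2 ≤ s) (ht : 1 ≤ t) {V : Type} [Finite V] (G : SimpleGraph V)
    (hG : (completeBipartiteGraph (Fin s) (Fin t)).Free G) (D : ℕ) {K : Set V}
    (hK : Reduces G D K) :
    (G.edgeSet.ncard : ℝ) ≤ (G.induce K).edgeSet.ncard + (D + 1) * Nat.card V +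
      8 * (s - 1) * t * (Nat.card V : ℝ) ^ (2 - 1 / ((s : ℝ) - 1)) := by
  classical
  have := Fintype.ofFinite V
  obtain ⟨m, ρ, p, h1, h2, h3, h4, h5⟩ := hK.rank
  have h6 := split_edges G h3
  obtain ⟨L, h7, h8⟩ := later_bip s t hs ht G hG h1 h2 h4
    (fun v => if v ∈ K then ∅ else
      {w : V | ρ v < ρ w ∧ G.Adj v w ∧ w ≠ p v ∧ ¬ G.Adj (p v) w}.toFinset) D (by
      intro v
      by_cases hv : v ∈ K
      · rw [if_pos hv, card_empty]
        exact Nat.zero_le _
      · rw [if_neg hv, ← Set.ncard_eq_toFinset_card']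
        exact h5 v hv) (by
      intro v w hv h8 h9 h10 h11
      rw [if_neg hv, Set.mem_toFinset]
      exact ⟨h9, h8, h10, h11⟩)
    {q : V × V | G.Adj q.1 q.2 ∧ ρ q.1 < ρ q.2}.toFinset
    (fun q hq => by simpa using hq)
  rw [← Set.ncard_eq_toFinset_card', ← Nat.card_eq_fintype_card] at h7
  rw [← Nat.card_eq_fintype_card] at h8
  have h9 := real_bound _ t (s - 1) _ (by omega) ht h8
  rw [Nat.cast_sub (by omega), Nat.cast_one] at h9
  have h10 : (G.edgeSet.ncard : ℝ) ≤ (#L + (D + 1) * Nat.card V : ℕ) +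
      ((G.induce K).edgeSet.ncard : ℕ) := by
    exact_mod_cast h6.trans (Nat.add_le_add_right h7 _)
  push_cast at h10
  linarith

end Pool.Agent.Y384.DM
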