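import Pool.Agent.Y384.EC.Walks
import Pool.Agent.Y384.DM.Basic

/-!
# Even cycles and dominated vertices
-/

set_option autoImplicit false

namespace Pool.Agent.Y384.DM

open Finset SimpleGraph Pool.Agent.Y384.EC

/-- `k` vertices have less than `k` common neighbours. -/
theorem common {V : Type} {G : SimpleGraph V} {k : ℕ} (hk : 2 ≤ k)
    (hG : (cycleGraph (2 * k)).Free G) (a : ℕ → V)
    (ha : ∀ i < k, ∀ j < k, a i = a j → i = j) (S : Finset V)
    (hS : ∀ w ∈ S, ∀ j < k, G.Adj w (a j)) : S.card < k := by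
  classical
  by_contra hcon
  push Not at hcon
  obtain ⟨T, hT, hTk⟩ := exists_subset_card_eq hcon
  have e := T.equivFinOfCardEq hTk
  set b : ℕ → V := fun i => if h : i < k then (e.symm ⟨i, h⟩ : V) else a 0 with hb
  have hbS : ∀ i < k, b i ∈ S := by
    intro i hi
    rw [hb]
    simp only [hi, dif_pos]
    exact hT (e.symm ⟨i, hi⟩).2
  have hbi : ∀ i < k, ∀ j < k, b i = b j → i = j := by
    intro i hi j hj h
    rw [hb] at h
    simp only [hi, hj, dif_pos] at h
    have h2 := e.symm.injective (Subtype.ext h)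
    exact Fin.mk.inj h2
  refine hG (cycle_of_seq (f := fun i => if i % 2 = 0 then b (i / 2) else a (i / 2))
    (n := 2 * k) ⟨fun i hi => ?_, fun i hi j hj hij => ?_⟩ (by omega) ?_)
  · simp only
    rcases Nat.mod_two_eq_zero_or_one i with h | h
    · rw [if_pos h, if_neg (by omega)]
      exact hS _ (hbS _ (by omega)) _ (by omega)
    · rw [if_neg (by omega), if_pos (by omega)]
      exact (hS _ (hbS _ (by omega)) _ (by omega)).symm
  · simp only at hij
    rcases Nat.mod_two_eq_zero_or_one i with h | h <;>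
      rcases Nat.mod_two_eq_zero_or_one j with h' | h'
    · rw [if_pos h, if_pos h'] at hij
      have := hbi _ (by omega) _ (by omega) hij
      omega
    · rw [if_pos h, if_neg (by omega)] at hij
      exact absurd hij (hS _ (hbS _ (by omega)) _ (by omega)).ne
    · rw [if_neg (by omega), if_pos h'] at hij
      exact absurd hij.symm (hS _ (hbS _ (by omega)) _ (by omega)).ne
    · rw [if_neg (by omega), if_neg (by omega)] at hij
      have := ha _ (by omega) _ (by omega) hij
      omega
  · simp only
    rw [if_neg (show ¬ (2 * k - 1) % 2 = 0 by omega), if_pos trivial]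
    exact (hS _ (hbS _ (by omega)) _ (by omega)).symm

/-- The chain `u, p u, p (p u), …` -/
theorem chain {V : Type} {G : SimpleGraph V} {K : Set V} {m : ℕ} {ρ : V → ℕ} {p : V → V}
    (h1 : ∀ v, v ∈ K ↔ ρ v = m) (h2 : ∀ v, ρ v ≤ m) (h3 : ∀ u v, u ∉ K → ρ u = ρ v → u = v)
    (h4 : ∀ v, v ∉ K → ρ v < ρ (p v))
    (u w : V) (hadj : G.Adj u w) (hlt : ρ u < ρ w) :
    ∃ i, (∀ j ≤ i, p^[j] u ∉ K ∧ ρ (p^[j] u) < ρ (p^[j + 1] u) ∧ ρ (p^[j] u) < ρ w ∧
      G.Adj w (p^[j] u)) ∧ (w = p^[i + 1] u ∨ (w ≠ p^[i + 1] u ∧ ¬ G.Adj w (p^[i + 1] u)) ∨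
        (G.Adj w (p^[i + 1] u) ∧ ((w ∉ K ∧ ρ w < ρ (p^[i + 1] u)) ∨
          (w ∈ K ∧ p^[i + 1] u ∈ K)))) := by
  classical
  have hK : ∀ v, ρ v < ρ w → v ∉ K := by
    intro v hv hvK
    rw [h1] at hvK
    have := h2 w
    omega
  have hex : ∃ i, ¬ (ρ (p^[i] u) < ρ w ∧ G.Adj w (p^[i] u)) := by
    by_contra hcon
    push Not at hcon
    have hgrow : ∀ i, i ≤ ρ (p^[i] u) := by
      intro i
      induction i with
      | zero => exact Nat.zero_le _
      | succ i ih =>
        have := h4 _ (hK _ (hcon i).1)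
        rw [Function.iterate_succ_apply']
        omega
    have := hgrow (m + 1)
    have := h2 (p^[m + 1] u)
    omega
  obtain ⟨i, hi⟩ : ∃ i, Nat.find hex = i + 1 := by
    refine ⟨Nat.find hex - 1, ?_⟩
    have h0 : Nat.find hex ≠ 0 := by
      intro h0
      have := Nat.find_spec hex
      rw [h0] at this
      exact this ⟨hlt, hadj.symm⟩
    omega
  have hlow : ∀ j ≤ i, ρ (p^[j] u) < ρ w ∧ G.Adj w (p^[j] u) := fun j hj =>
    not_not.1 (Nat.find_min hex (by omega))
  have hspec := Nat.find_spec hex
  rw [hi] at hspec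
  refine ⟨i, fun j hj => ⟨hK _ (hlow j hj).1, ?_, hlow j hj⟩, ?_⟩
  · rw [Function.iterate_succ_apply']
    exact h4 _ (hK _ (hlow j hj).1)
  · by_cases h : G.Adj w (p^[i + 1] u)
    · right; right
      refine ⟨h, ?_⟩
      have h8 : ¬ ρ (p^[i + 1] u) < ρ w := fun h9 => hspec ⟨h9, h⟩
      by_cases hw : w ∈ K
      · right
        refine ⟨hw, ?_⟩
        rw [h1] at hw ⊢
        have := h2 (p^[i + 1] u)
        omega
      · left
        refine ⟨hw, ?_⟩
        rcases Nat.lt_or_ge (ρ w) (ρ (p^[i + 1] u)) with h9 | h9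
        · exact h9
        · exfalso
          exact h.ne (h3 w _ hw (by omega))
    · by_cases h9 : w = p^[i + 1] u
      · exact Or.inl h9
      · exact Or.inr (Or.inl ⟨h9, h⟩)

theorem joined_one {V : Type} {G : SimpleGraph V} {a b : V} (h : G.Adj a b) : Joined G 1 a b := by
  refine ⟨Walk.cons h Walk.nil, ?_, rfl⟩
  rw [Walk.cons_isPath_iff]
  refine ⟨Walk.IsPath.nil, ?_⟩
  rw [Walk.support_nil, List.mem_singleton]
  exact h.ne

theorem joined_two {V : Type} {G : SimpleGraph V} {a b c : V} (h : G.Adj a b) (h' : G.Adj b c)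
    (hac : a ≠ c) : Joined G 2 a c := by
  refine ⟨Walk.cons h (Walk.cons h' Walk.nil), ?_, rfl⟩
  rw [Walk.cons_isPath_iff, Walk.cons_isPath_iff]
  refine ⟨⟨Walk.IsPath.nil, ?_⟩, ?_⟩
  · rw [Walk.support_nil, List.mem_singleton]
    exact h'.ne
  · rw [Walk.support_cons, Walk.support_nil, List.mem_cons, List.mem_singleton]
    rintro (h1 | h1)
    · exact h.ne h1
    · exact hac h1

theorem seq_two {V : Type} {G : SimpleGraph V} {a b : V} (h : G.Adj a b) :
    Seq G (fun i => if i = 0 then a else b) (1 + 1) := by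
  refine ⟨fun i hi => ?_, fun i hi j hj hij => ?_⟩
  · have : i = 0 := by omega
    subst this
    simpa using h
  · have h1 : i = 0 ∨ i = 1 := by omega
    have h2 : j = 0 ∨ j = 1 := by omega
    rcases h1 with rfl | rfl <;> rcases h2 with rfl | rfl
    · rfl
    · simp only [if_true, one_ne_zero, if_false] at hij
      exact absurd hij h.ne
    · simp only [if_true, one_ne_zero, if_false] at hij
      exact absurd hij.symm h.ne
    · rfl

/-- The number of later neighbours. -/
theorem later (k : ℕ) (hk : 2 ≤ k) {V : Type} [Fintype V] [DecidableEq V] (G : SimpleGraph V)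
    (hG : (cycleGraph (2 * k)).Free G) {K : Set V} {m : ℕ} {ρ : V → ℕ} {p : V → V}
    (h1 : ∀ v, v ∈ K ↔ ρ v = m) (h2 : ∀ v, ρ v ≤ m) (h3 : ∀ u v, u ∉ K → ρ u = ρ v → u = v)
    (h4 : ∀ v, v ∉ K → ρ v < ρ (p v)) (X : V → Finset V) (d : ℕ) (hX : ∀ v, (X v).card ≤ d)
    (h5 : ∀ v w, v ∉ K → G.Adj v w → ρ v < ρ w → w ≠ p v → ¬ G.Adj (p v) w → w ∈ X v)
    (P D : Finset (V × V)) (hP : ∀ q ∈ P, G.Adj q.1 q.2 ∧ ρ q.1 < ρ q.2)
    (hD : ∀ q : V × V, q.1 ∈ K → q.2 ∈ K → G.Adj q.1 q.2 → q ∈ D) :
    P.card ≤ k * Fintype.card V + (k * ((d + 1) * Fintype.card V) +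
      k * (2 * (CC k * Fintype.card V) + (BB k * (Fintype.card V + D.card) +
        BB k * (Fintype.card V + d * Fintype.card V)))) := by
  classical
  set n := Fintype.card V with hn
  -- far
  set F0 : Finset (V × V) := P.filter (fun q => (∀ i < k, ∀ j < k,
    p^[i] q.1 = p^[j] q.1 → i = j) ∧ ∀ j < k, G.Adj q.2 (p^[j] q.1)) with hF0
  set B : ℕ → Finset (V × V) := fun i => P.filter (fun q => q.2 ∈ insert (p^[i + 1] q.1)
    (X (p^[i] q.1))) with hB
  set A1 : ℕ → Finset (V × V) := fun i => (pairs G 2 1 (p^[i + 1]) p).toFinset with hA1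
  set A2 : ℕ → Finset (V × V) := fun i => (pairs G 2 2 (p^[i + 1]) p).toFinset with hA2
  set Cc : ℕ → Finset (V × V) := fun i => P.filter (fun q => q.2 ∈ K ∧ p^[i + 1] q.1 ∈ K ∧
    G.Adj q.2 (p^[i + 1] q.1)) with hCc
  set A3 : ℕ → Finset (V × V) := fun i => P.filter (fun q => G.Adj q.2 (p^[i + 1] q.1) ∧
    p^[i + 1] q.1 ∈ X q.2) with hA3
  have hcover : P ⊆ F0 ∪ ((range k).biUnion B ∪
      (range k).biUnion (fun i => if 2 < k then (A1 i ∪ A2 i) ∪ (Cc i ∪ A3 i) else ∅)) := by
    intro q hq
    obtain ⟨hadj, hlt⟩ := hP q hq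
    obtain ⟨i, hc1, hc2⟩ := chain h1 h2 h3 h4 q.1 q.2 hadj hlt
    have hmono : ∀ j ≤ i + 1, ∀ j' < j, ρ (p^[j'] q.1) < ρ (p^[j] q.1) := by
      intro j
      induction j with
      | zero => intro _ j' hj'; omega
      | succ j ih =>
        intro hj j' hj'
        have h6 := (hc1 j (by omega)).2.1
        rcases Nat.lt_or_ge j' j with h7 | h7
        · exact (ih (by omega) j' h7).trans h6
        · have : j' = j := by omega
          rw [this]
          exact h6
    have hinj : ∀ j ≤ i + 1, ∀ j' ≤ i + 1, p^[j'] q.1 = p^[j] q.1 → j' = j := by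
      intro j hj j' hj' h
      rcases lt_trichotomy j' j with h6 | h6 | h6
      · have := hmono j hj j' h6
        rw [h] at this
        exact absurd this (lt_irrefl _)
      · exact h6
      · have := hmono j' hj' j h6
        rw [h] at this
        exact absurd this (lt_irrefl _)
    rw [mem_union, mem_union]
    rcases Nat.lt_or_ge i k with hik | hik
    · have hstep := Function.iterate_succ_apply' p i q.1
      rcases hc2 with hc2 | ⟨hc2, hc3⟩ | ⟨hc2, hc3⟩
      · right; left
        exact mem_biUnion.2 ⟨i, mem_range.2 hik, mem_filter.2 ⟨hq, mem_insert.2 (Or.inl hc2)⟩⟩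
      · right; left
        obtain ⟨h6, -, h7, h8⟩ := hc1 i le_rfl
        refine mem_biUnion.2 ⟨i, mem_range.2 hik, mem_filter.2 ⟨hq, mem_insert.2 (Or.inr ?_)⟩⟩
        rw [Nat.succ_eq_add_one] at hstep
        rw [hstep] at hc2 hc3
        exact h5 _ _ h6 h8.symm h7 hc2 (fun h => hc3 h.symm)
      · rcases Nat.lt_or_ge (i + 2) k with hik' | hik'
        · right; right
          refine mem_biUnion.2 ⟨i, mem_range.2 hik, ?_⟩
          rw [if_pos (by omega), mem_union, mem_union, mem_union]
          rcases hc3 with ⟨hw, hr⟩ | ⟨hw, hr⟩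
          · have hne : q.1 ≠ p^[i + 1] q.1 := by
              intro h
              have := hinj (i + 1) le_rfl 0 (by omega) h
              omega
            have hj2 : Joined G 2 q.1 (p^[i + 1] q.1) := joined_two hadj hc2 hne
            by_cases h6 : p^[i + 1] q.1 = p q.2
            · left; left
              rw [hA1]
              simp only [Set.mem_toFinset]
              refine ⟨hadj, Or.inl h6, hj2, joined_one ?_⟩
              rw [← h6]
              exact hc2
            · by_cases h7 : G.Adj (p q.2) (p^[i + 1] q.1)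
              · left
                by_cases h8 : G.Adj q.2 (p q.2)
                · left
                  rw [hA1]
                  simp only [Set.mem_toFinset]
                  exact ⟨hadj, Or.inr h7.symm, hj2, joined_one h8⟩
                · right
                  rw [hA2]
                  simp only [Set.mem_toFinset]
                  refine ⟨hadj, Or.inr h7.symm, hj2, joined_two hc2 h7.symm ?_⟩
                  intro h9
                  have := h4 q.2 hw
                  rw [← h9] at this
                  exact lt_irrefl _ this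
              · right; right
                exact mem_filter.2 ⟨hq, hc2, h5 _ _ hw hc2 hr h6 h7⟩
          · right; left
            exact mem_filter.2 ⟨hq, hw, hr, hc2⟩
        · left
          refine mem_filter.2 ⟨hq, fun a ha b hb h => hinj b (by omega) a (by omega) h,
            fun j hj => ?_⟩
          rcases Nat.lt_or_ge i j with h6 | h6
          · have : j = i + 1 := by omega
            rw [this]
            exact hc2
          · exact (hc1 j h6).2.2.2
    · left
      exact mem_filter.2 ⟨hq, fun a ha b hb h => hinj b (by omega) a (by omega) h,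
        fun j hj => (hc1 j (by omega)).2.2.2⟩
  have hF0c : F0.card ≤ k * n := by
    have h6 : F0.card ≤ ∑ u : V, (F0.filter (fun q => q.1 = u)).card :=
      (card_eq_sum_card_fiberwise (f := Prod.fst) (t := (univ : Finset V))
        (fun v _ => mem_coe.2 (mem_univ _))).le
    refine h6.trans ((sum_le_card_nsmul _ _ k ?_).trans ?_)
    · intro u _
      rcases (F0.filter (fun q => q.1 = u)).eq_empty_or_nonempty with h7 | ⟨q, hq⟩
      · rw [h7, card_empty]
        exact Nat.zero_le _
      · obtain ⟨hq1, hq2⟩ := mem_filter.1 hq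
        have hq3 := (mem_filter.1 hq1).2.1
        rw [hq2] at hq3
        have h8 := common hk hG (fun j => p^[j] u) hq3
          ((F0.filter (fun q => q.1 = u)).image Prod.snd) (by
            intro w hw j hj
            obtain ⟨q', hq', rfl⟩ := mem_image.1 hw
            obtain ⟨h9, h10⟩ := mem_filter.1 hq'
            have := (mem_filter.1 h9).2.2 j hj
            rw [h10] at this
            exact this)
        rw [card_image_of_injOn] at h8
        · exact h8.le
        · intro a ha b hb hab
          have ha' := (mem_filter.1 (mem_coe.1 ha)).2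
          have hb' := (mem_filter.1 (mem_coe.1 hb)).2
          exact Prod.ext (ha'.trans hb'.symm) hab
    · rw [card_univ, smul_eq_mul, mul_comm]
  have hBc : ∀ i ∈ range k, (B i).card ≤ (d + 1) * n := by
    intro i _
    have h6 : (B i).card ≤ ∑ u : V, ((B i).filter (fun q => q.1 = u)).card :=
      (card_eq_sum_card_fiberwise (f := Prod.fst) (t := (univ : Finset V))
        (fun v _ => mem_coe.2 (mem_univ _))).le
    refine h6.trans ((sum_le_card_nsmul _ _ (d + 1) ?_).trans ?_)
    · intro u _
      refine le_trans ?_ ((card_insert_le (p^[i + 1] u) (X (p^[i] u))).trans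
        (Nat.add_le_add_right (hX _) 1))
      refine card_le_card_of_injOn Prod.snd ?_ ?_
      · intro q hq
        obtain ⟨h7, h8⟩ := mem_filter.1 (mem_coe.1 hq)
        have h9 := (mem_filter.1 h7).2
        rw [h8] at h9
        exact h9
      · intro a ha b hb hab
        have ha' := (mem_filter.1 (mem_coe.1 ha)).2
        have hb' := (mem_filter.1 (mem_coe.1 hb)).2
        exact Prod.ext (ha'.trans hb'.symm) hab
    · rw [card_univ, smul_eq_mul, mul_comm]
  -- fans
  have hfan : 2 < k → ∀ (f : V → V) (Q : Finset (V × V)) (Y : V → Finset V),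
      (∀ q ∈ Q, G.Adj q.1 q.2 ∧ G.Adj q.2 (f q.1) ∧ q.2 ∈ Y (f q.1)) →
      Q.card ≤ BB k * (n + ∑ c : V, (Y c).card) := by
    intro hk3 f Q Y hQ
    have h6 : Q.card ≤ ∑ c : V, (Q.filter (fun q => f q.1 = c)).card :=
      (card_eq_sum_card_fiberwise (f := fun q : V × V => f q.1) (t := (univ : Finset V))
        (fun v _ => mem_coe.2 (mem_univ _))).le
    have h7 : ∀ c ∈ (univ : Finset V), (Q.filter (fun q => f q.1 = c)).card ≤
        BB k * ((univ.filter (fun u => f u = c)).card + (Y c).card) := by
      intro c _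
      have h8 := fan k G hG 1 (by omega) c (fun v j => if j = 0 then v else c)
        (Q.filter (fun q => f q.1 = c)) (univ.filter (fun u => f u = c))
        ((Y c).filter (fun w => G.Adj w c)) (by
          intro q hq
          obtain ⟨h9, h10⟩ := mem_filter.1 hq
          obtain ⟨h11, h12, h13⟩ := hQ q h9
          rw [h10] at h12 h13
          exact ⟨h11, mem_filter.2 ⟨mem_univ _, h10⟩, mem_filter.2 ⟨h13, h12⟩⟩) (by
          intro v hv
          obtain ⟨-, h9⟩ := mem_filter.1 hv
          exact ⟨seq_two h9, by simp, by simp⟩)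
      rw [pow_one] at h8
      exact h8.trans (Nat.mul_le_mul_left _ (Nat.add_le_add_left (card_filter_le _ _) _))
    refine h6.trans ((sum_le_sum h7).trans ?_)
    rw [← mul_sum, sum_add_distrib, count_F univ f, card_univ]
  have hAc : ∀ i ∈ range k, (if 2 < k then (A1 i ∪ A2 i) ∪ (Cc i ∪ A3 i) else ∅).card ≤
      2 * (CC k * n) + (BB k * (n + D.card) + BB k * (n + d * n)) := by
    intro i _
    by_cases hk3 : 2 < k
    · rw [if_pos hk3]
      refine (card_union_le _ _).trans (Nat.add_le_add ((card_union_le _ _).trans ?_)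
        ((card_union_le _ _).trans ?_))
      · rw [two_mul]
        refine Nat.add_le_add ?_ ?_
        · have := walks k 2 1 (by omega) (by omega) (by omega) (by omega) (by omega) G hG
            (p^[i + 1]) p
          rw [Set.ncard_eq_toFinset_card', Nat.card_eq_fintype_card] at this
          exact this
        · have := walks k 2 2 (by omega) (by omega) (by omega) (by omega) (by omega) G hG
            (p^[i + 1]) p
          rw [Set.ncard_eq_toFinset_card', Nat.card_eq_fintype_card] at this
          exact this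
      · refine Nat.add_le_add ?_ ?_
        · refine (hfan hk3 (p^[i + 1]) (Cc i) (fun c => (D.filter (fun q => q.1 = c)).image
            Prod.snd) ?_).trans ?_
          · intro q hq
            obtain ⟨h6, h7, h8, h9⟩ := mem_filter.1 hq
            exact ⟨(hP q h6).1, h9, mem_image.2 ⟨(p^[i + 1] q.1, q.2),
              mem_filter.2 ⟨hD _ h8 h7 h9.symm, rfl⟩, rfl⟩⟩
          · refine Nat.mul_le_mul_left _ (Nat.add_le_add_left ?_ _)
            refine (sum_le_sum fun c _ => card_image_le).trans ?_
            exact (card_eq_sum_card_fiberwise (f := Prod.fst) (s := D) (t := (univ : Finset V))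
              (fun v _ => mem_coe.2 (mem_univ _))).ge
        · refine (hfan hk3 (p^[i + 1]) (A3 i) (fun c => univ.filter (fun w => c ∈ X w)) ?_).trans ?_
          · intro q hq
            obtain ⟨h6, h7, h8⟩ := mem_filter.1 hq
            exact ⟨(hP q h6).1, h7, mem_filter.2 ⟨mem_univ _, h8⟩⟩
          · refine Nat.mul_le_mul_left _ (Nat.add_le_add_left ?_ _)
            have := count_T univ X d hX
            rwa [card_univ] at this
    · rw [if_neg hk3, card_empty]
      exact Nat.zero_le _
  refine (card_le_card hcover).trans ((card_union_le _ _).trans ?_)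
  refine Nat.add_le_add hF0c ((card_union_le _ _).trans (Nat.add_le_add ?_ ?_))
  · refine card_biUnion_le.trans ((sum_le_card_nsmul _ _ _ hBc).trans ?_)
    rw [card_range, smul_eq_mul]
  · refine card_biUnion_le.trans ((sum_le_card_nsmul _ _ _ hAc).trans ?_)
    rw [card_range, smul_eq_mul]

/-- The constant. -/
def EE (k : ℕ) : ℕ := 4 * k * (1 + CC k + BB k) + 1

theorem main (k : ℕ) (hk : 2 ≤ k) {V : Type} [Finite V] (G : SimpleGraph V)
    (hG : (cycleGraph (2 * k)).Free G) (d : ℕ) {K : Set V} (hK : Reduces G d K) :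
    G.edgeSet.ncard ≤ EE k * ((1 + d) * Nat.card V + (G.induce K).edgeSet.ncard) := by
  classical
  have := Fintype.ofFinite V
  obtain ⟨m, ρ, p, h1, h2, h3, h4, h5⟩ := hK.rank
  have h6 := split_edges G h3
  have h7 := later k hk G hG h1 h2 h3 h4
    (fun v => if v ∈ K then ∅ else
      {w : V | ρ v < ρ w ∧ G.Adj v w ∧ w ≠ p v ∧ ¬ G.Adj (p v) w}.toFinset) d (by
      intro v
      by_cases hv : v ∈ K
      · rw [if_pos hv, card_empty]
        exact Nat.zero_le _
      · rw [if_neg hv, ← Set.ncard_eq_toFinset_card']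
        exact h5 v hv) (by
      intro v w hv h8 h9 h10 h11
      rw [if_neg hv, Set.mem_toFinset]
      exact ⟨h9, h8, h10, h11⟩)
    {q : V × V | G.Adj q.1 q.2 ∧ ρ q.1 < ρ q.2}.toFinset
    {q : V × V | q.1 ∈ K ∧ q.2 ∈ K ∧ G.Adj q.1 q.2}.toFinset
    (fun q hq => by simpa using hq) (fun q ha hb hc => by simp [ha, hb, hc])
  rw [← Set.ncard_eq_toFinset_card', ← Set.ncard_eq_toFinset_card', card_pairs,
    ← Nat.card_eq_fintype_card] at h7
  set n := Nat.card V
  set e := (G.induce K).edgeSet.ncard
  refine h6.trans ((Nat.add_le_add_right h7 _).trans ?_)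
  unfold EE
  have a1 : k * n + (k * ((d + 1) * n) + k * (2 * (CC k * n) + (BB k * (n + 2 * e) +
      BB k * (n + d * n)))) + e =
      (2 * k + 2 * (k * CC k) + 2 * (k * BB k)) * n + (k + k * BB k) * (d * n) +
        (2 * (k * BB k) + 1) * e := by ring
  have a2 : (4 * k * (1 + CC k + BB k) + 1) * ((1 + d) * n + e) =
      (4 * k + 4 * (k * CC k) + 4 * (k * BB k) + 1) * n +
      (4 * k + 4 * (k * CC k) + 4 * (k * BB k) + 1) * (d * n) +
      (4 * k + 4 * (k * CC k) + 4 * (k * BB k) + 1) * e := by ring
  rw [a1, a2]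
  refine Nat.add_le_add (Nat.add_le_add (Nat.mul_le_mul_right _ ?_) (Nat.mul_le_mul_right _ ?_))
    (Nat.mul_le_mul_right _ ?_) <;> omega

end Pool.Agent.Y384.DM
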